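import Pool.Agent.Lib.MP_d9449f_ag.OQ.Main

/-!
# MP_d9449f_ag: the odd q-zeta conjecture for Donaldson-Thomas point series is false

The definitions used by the statement are in `Pool/Agent/Lib/MP_d9449f_ag/OQ/Statement.lean`.
`X = C^3`, `G = (C^*)^3` acting by scaling the coordinates, `L = O` and `f = ch_2 ch_4`.

The proof uses the Calabi-Yau torus, an exact formula for the two-point function of plane
partitions (Schur process), the algebraic independence of the derivatives of the odd weight
Eisenstein series together with a bound of the weight by the growth at the boundary of the disc,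
and a finite check modulo `8191`.
-/

set_option autoImplicit false

open Pool.Agent.Lib.MPd9449f

namespace Pool.Agent.Results.MP_d9449f_ag.OddQZetaFails

/-- For `X = C^3` with the action of the torus `T = (C^*)^3`, `L = O` and `f = ch_2 ch_4`, the
normalized series `⟨f⟩'` is not a finite sum `∑ a_j F_j` with `a_j` in the fraction field of
`H^*_T(pt) = ℚ[t_1, t_2, t_3]` and `F_j ∈ oqZ`. -/
theorem result : ¬ InKoqZ (bracket' sT (MvPolynomial.X 2 * MvPolynomial.X 4)) :=
  Pool.Agent.Lib.MPd9449f.main.1

end Pool.Agent.Results.MP_d9449f_ag.OddQZetaFails
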